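import Pool.Agent.H67.EndQ

namespace Pool.Agent.Results.MP_822856_al.ConeB

open Pool.Agent.H67.EndQ

universe u

theorem result (Γ : Type u) [AddCommGroup Γ] [LinearOrder Γ] [IsOrderedAddMonoid Γ]
    [Nontrivial Γ] :
    Nonempty (({x : Γ // 0 ≤ x} →ₙ+ {x : Γ // 0 ≤ x}) ≃+ ℚ≥0) ↔ RatMult Γ :=
  ord2

end Pool.Agent.Results.MP_822856_al.ConeB
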