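import Pool.Agent.H67.EndQ

namespace Pool.Agent.Results.MP_822856_al.ManyA

open Pool.Agent.H67.EndQ

universe u

theorem result : ∃ H : Set ℝ → Submodule ℚ ℝ, (∀ A, (1 : ℝ) ∈ H A) ∧
    (∀ A, A.Countable → Countable (H A)) ∧
    (∀ A, Nonempty ((pos (H A) →ₙ+ pos (H A)) ≃+ {q : ℚ // 0 < q})) ∧
    ∀ A B, Nonempty (pos (H A) ≃+ pos (H B)) → A = B := by
  obtain ⟨H, h1, h2, h3, -, h5, -⟩ := family
  exact ⟨H, h1, h2, h3, h5⟩

end Pool.Agent.Results.MP_822856_al.ManyA
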