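import Pool.Agent.H67.EndQ

namespace Pool.Agent.Results.MP_822856_al.ManyB

open Pool.Agent.H67.EndQ

universe u

theorem result : ∃ H : Set ℝ → Submodule ℚ ℝ, (∀ A, (1 : ℝ) ∈ H A) ∧
    (∀ A, A.Countable → Countable (H A)) ∧
    (∀ A, Nonempty ((nneg (H A) →ₙ+ nneg (H A)) ≃+ ℚ≥0)) ∧
    ∀ A B, Nonempty (nneg (H A) ≃+ nneg (H B)) → A = B := by
  obtain ⟨H, h1, h2, -, h4, -, h6⟩ := family
  exact ⟨H, h1, h2, h4, h6⟩

end Pool.Agent.Results.MP_822856_al.ManyB
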